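import Pool.Agent.W602.RG.Stm

/-!
# Project RG: a constant field extension of a function field is a function field
(part ISF, by helper215)
-/

set_option autoImplicit false

open FF IntermediateField

namespace Pool.Agent.W215.RG.ISF

open Pool.Agent.W602.RG

variable {k L Ω E : Type} [Field k] [Field L] [Field Ω] [Field E] [Algebra k L]
    [Algebra k Ω] [Algebra k E] [Algebra L E] [Algebra Ω E]

/-- powers of a transcendental element are linearly independent -/
lemma li_pow {z : L} (hz : Transcendental k z) (m : ℕ) :
    LinearIndependent k (fun i : Fin m => z ^ (i : ℕ)) := by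
  rw [Fintype.linearIndependent_iff]
  intro g hg i
  have h1 : Polynomial.aeval z (∑ j : Fin m, Polynomial.monomial (j : ℕ) (g j)) = 0 := by
    rw [map_sum, ← hg]
    refine Finset.sum_congr rfl fun j _ => ?_
    rw [Polynomial.aeval_monomial, Algebra.smul_def]
  have h2 := (transcendental_iff.1 hz) _ h1
  have h3 := congrArg (fun p => Polynomial.coeff p (i : ℕ)) h2
  simp only [Polynomial.finset_sum_coeff, Polynomial.coeff_monomial, Polynomial.coeff_zero] at h3
  rw [Finset.sum_eq_single i] at h3
  · simpa using h3
  · intro j _ hj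
    rw [if_neg]
    intro h
    exact hj (Fin.ext h)
  · intro h
    exact absurd (Finset.mem_univ i) h

lemma trans_of_li {f : E} (h : ∀ m : ℕ, LinearIndependent Ω (fun i : Fin m => f ^ (i : ℕ))) :
    Transcendental Ω f := by
  rw [transcendental_iff]
  intro p hp
  rw [Polynomial.aeval_eq_sum_range] at hp
  have h1 := h (p.natDegree + 1)
  rw [Fintype.linearIndependent_iff] at h1
  have h2 := h1 (fun i => p.coeff i) (by
    rw [← hp, ← Fin.sum_univ_eq_sum_range (fun i => p.coeff i • f ^ i)])
  ext n
  rw [Polynomial.coeff_zero]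
  by_cases hn : n < p.natDegree + 1
  · exact h2 ⟨n, hn⟩
  · exact Polynomial.coeff_eq_zero_of_natDegree_lt (by omega)

theorem main : S_ISF := by
  intro k L Ω E _ _ _ _ _ _ _ _ _ _ _ _ bc
  obtain ⟨z, hz⟩ := IsFF.exists_transcendental (k := k) (K := L)
  have hf : Transcendental Ω (algebraMap L E z) := by
    refine trans_of_li fun m => ?_
    have h1 := bc.ld m _ (li_pow hz m)
    simpa only [map_pow] using h1
  refine IsFF.of_finite hf ?_
  have hfin : FiniteDimensional k⟮z⟯ L := IsFF.finite hz
  haveI := bc.towerL
  haveI := bc.towerO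
  -- the image of `k(z)`
  have hmem : ∀ x : k⟮z⟯, algebraMap L E (x : L) ∈ Ω⟮algebraMap L E z⟯ := by
    rintro ⟨x, hx⟩
    change algebraMap L E x ∈ _
    induction hx using IntermediateField.adjoin_induction with
    | mem x hx =>
      rw [Set.mem_singleton_iff] at hx
      rw [hx]
      exact IntermediateField.mem_adjoin_simple_self Ω _
    | algebraMap x =>
      rw [← IsScalarTower.algebraMap_apply k L E, IsScalarTower.algebraMap_apply k Ω E]
      exact IntermediateField.algebraMap_mem _ _
    | add x y _ _ hx hy => rw [map_add]; exact add_mem hx hy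
    | inv x _ hx => rw [map_inv₀]; exact inv_mem hx
    | mul x y _ _ hx hy => rw [map_mul]; exact mul_mem hx hy
  let φ : k⟮z⟯ →+* Ω⟮algebraMap L E z⟯ :=
    ((algebraMap L E).comp (algebraMap k⟮z⟯ L)).codRestrict
      (Ω⟮algebraMap L E z⟯).toSubfield.toSubring hmem
  have hcomp : (algebraMap Ω⟮algebraMap L E z⟯ E).comp φ =
      (algebraMap L E).comp (algebraMap k⟮z⟯ L) := by
    ext x
    rfl
  have hint : ∀ l : L, IsIntegral Ω⟮algebraMap L E z⟯ (algebraMap L E l) := fun l =>
    IsIntegral.map_of_comp_eq φ (algebraMap L E) hcomp (IsIntegral.of_finite k⟮z⟯ l)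
  obtain ⟨s, hs⟩ := Module.Finite.fg_top (R := k⟮z⟯) (M := L)
  classical
  have hfd : FiniteDimensional Ω⟮algebraMap L E z⟯
      (IntermediateField.adjoin Ω⟮algebraMap L E z⟯ ((s.image (algebraMap L E) : Finset E) : Set E)) := by
    refine IntermediateField.finiteDimensional_adjoin fun x hx => ?_
    rw [Finset.mem_coe, Finset.mem_image] at hx
    obtain ⟨l, _, rfl⟩ := hx
    exact hint l
  have hL : ∀ l : L, algebraMap L E l ∈ IntermediateField.adjoin Ω⟮algebraMap L E z⟯
      ((s.image (algebraMap L E) : Finset E) : Set E) := by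
    intro l
    have h1 : l ∈ Submodule.span k⟮z⟯ (s : Set L) := by rw [hs]; trivial
    induction h1 using Submodule.span_induction with
    | mem x hx =>
      apply IntermediateField.subset_adjoin
      rw [Finset.coe_image]
      exact ⟨x, hx, rfl⟩
    | zero => rw [map_zero]; exact zero_mem _
    | add x y _ _ hx hy => rw [map_add]; exact add_mem hx hy
    | smul a x _ hx =>
      rw [Algebra.smul_def, map_mul]
      refine mul_mem ?_ hx
      have : algebraMap L E (algebraMap k⟮z⟯ L a) = algebraMap Ω⟮algebraMap L E z⟯ E (φ a) := rfl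
      rw [this]
      exact IntermediateField.algebraMap_mem _ _
  have hspan : ∀ a ∈ Submodule.span Ω (Set.range (algebraMap L E)),
      a ∈ IntermediateField.adjoin Ω⟮algebraMap L E z⟯
        ((s.image (algebraMap L E) : Finset E) : Set E) := by
    intro a ha
    induction ha using Submodule.span_induction with
    | mem x hx =>
      obtain ⟨l, rfl⟩ := hx
      exact hL l
    | zero => exact zero_mem _
    | add x y _ _ hx hy => exact add_mem hx hy
    | smul a x _ hx =>
      rw [Algebra.smul_def]
      refine mul_mem ?_ hx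
      have : algebraMap Ω E a = algebraMap Ω⟮algebraMap L E z⟯ E (algebraMap Ω _ a) := rfl
      rw [this]
      exact IntermediateField.algebraMap_mem _ _
  have htop : IntermediateField.adjoin Ω⟮algebraMap L E z⟯
      ((s.image (algebraMap L E) : Finset E) : Set E) = ⊤ := by
    rw [eq_top_iff]
    intro e _
    obtain ⟨a, ha, b, hb, _, rfl⟩ := bc.gen e
    exact div_mem (hspan a ha) (hspan b hb)
  rw [htop] at hfd
  exact IntermediateField.topEquiv.toLinearEquiv.finiteDimensional

end Pool.Agent.W215.RG.ISF
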