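import Pool.Agent.W602.RG.Stm

/-!
# Project RG: regularity at the places above places of `L` (part RGC, by helper215)
-/

set_option autoImplicit false

open FF Pool.Agent.W603.LV

namespace Pool.Agent.W215.RG.RGC

open Pool.Agent.W602.RG

variable {k L Ω E : Type} [Field k] [Field L] [Field Ω] [Field E] [Algebra k L]
    [Algebra k Ω] [Algebra k E] [Algebra L E] [Algebra Ω E]

/-- the restriction of a place -/
lemma restr (bc : BC k L Ω E) (P : Place Ω E) (hP : ∃ l : L, P.ord (algebraMap L E l) ≠ 0) :
    ∃ (p : Place k L) (e : ℤ), 0 < e ∧ ∀ l : L, P.ord (algebraMap L E l) = e * p.ord l := by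
  classical
  haveI := bc.towerL
  haveI := bc.towerO
  have hinj : Function.Injective (algebraMap L E) := (algebraMap L E).injective
  have hne : ∀ {l : L}, l ≠ 0 → algebraMap L E l ≠ 0 := fun h h' => h (hinj (by rw [h', map_zero]))
  have hex : ∃ n : ℕ, 0 < n ∧ ∃ l : L, l ≠ 0 ∧ P.ord (algebraMap L E l) = n := by
    obtain ⟨l, hl⟩ := hP
    have hl0 : l ≠ 0 := by
      rintro rfl
      rw [map_zero, P.ord_zero] at hl
      exact hl rfl
    rcases lt_or_gt_of_ne hl with h | h
    · refine ⟨(P.ord (algebraMap L E l⁻¹)).toNat, ?_, l⁻¹, inv_ne_zero hl0, ?_⟩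
      · rw [map_inv₀, P.ord_inv]; omega
      · rw [map_inv₀, P.ord_inv]; omega
    · exact ⟨(P.ord (algebraMap L E l)).toNat, by omega, l, hl0, by omega⟩
  set e := Nat.find hex with he
  obtain ⟨he0, t, ht0, ht⟩ := Nat.find_spec hex
  rw [← he] at he0 ht
  have hmin : ∀ n : ℕ, 0 < n → (∃ l : L, l ≠ 0 ∧ P.ord (algebraMap L E l) = n) → e ≤ n :=
    fun n h1 h2 => Nat.find_min' hex ⟨h1, h2⟩
  have hdvd : ∀ l : L, (e : ℤ) ∣ P.ord (algebraMap L E l) := by
    intro l
    by_cases hl : l = 0
    · rw [hl, map_zero, P.ord_zero]; exact dvd_zero _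
    by_contra hnd
    have hr0 : 0 ≤ P.ord (algebraMap L E l) % e := Int.emod_nonneg _ (by omega)
    have hr1 : P.ord (algebraMap L E l) % e < e := Int.emod_lt_of_pos _ (by omega)
    have hr2 : P.ord (algebraMap L E l) % e ≠ 0 := fun h => hnd (Int.dvd_of_emod_eq_zero h)
    have h3 : P.ord (algebraMap L E (l * t ^ (-(P.ord (algebraMap L E l) / e)))) =
        P.ord (algebraMap L E l) % e := by
      rw [map_mul, map_zpow₀, P.ord_mul (hne hl) (zpow_ne_zero _ (hne ht0)), P.ord_zpow, ht]
      have := Int.emod_add_mul_ediv (P.ord (algebraMap L E l)) e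
      linarith [mul_comm (e : ℤ) (P.ord (algebraMap L E l) / e)]
    have h4 := hmin (P.ord (algebraMap L E l) % e).toNat (by omega)
      ⟨l * t ^ (-(P.ord (algebraMap L E l) / e)), mul_ne_zero hl (zpow_ne_zero _ ht0), by
        rw [h3]; omega⟩
    omega
  have heZ : (0 : ℤ) < e := by exact_mod_cast he0
  have hq : ∀ l : L, P.ord (algebraMap L E l) = e * (P.ord (algebraMap L E l) / e) := fun l =>
    (Int.mul_ediv_cancel' (hdvd l)).symm
  refine ⟨{ ord := fun l => P.ord (algebraMap L E l) / e
            ord_zero := by rw [map_zero, P.ord_zero]; simp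
            ord_mul := ?_
            ord_add := ?_
            ord_const := ?_
            surj := ⟨t, ht0, by rw [ht]; exact Int.ediv_self (by omega)⟩ }, e, heZ, hq⟩
  · intro f g hf hg
    rw [map_mul, P.ord_mul (hne hf) (hne hg)]
    exact Int.add_ediv_of_dvd_left (hdvd f)
  · intro f g hf hg hfg
    have h1 := P.ord_add (hne hf) (hne hg) (by rw [← map_add]; exact hne hfg)
    rw [← map_add] at h1
    rcases min_le_iff.1 h1 with h | h
    · exact (min_le_left _ _).trans (Int.ediv_le_ediv heZ h)
    · exact (min_le_right _ _).trans (Int.ediv_le_ediv heZ h)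
  · intro c hc
    rw [← IsScalarTower.algebraMap_apply k L E, IsScalarTower.algebraMap_apply k Ω E,
      P.ord_const (by
        intro h
        exact hc ((algebraMap k Ω).injective (by rw [h, map_zero])))]
    simp

/-- residues of elements of `L` are in `k` -/
lemma res [IsAlgClosed k] [CharZero k] [IsFF k L] (bc : BC k L Ω E) (P : Place Ω E)
    (hP : ∃ l : L, P.ord (algebraMap L E l) ≠ 0) (l : L) (hl : 0 ≤ P.ord (algebraMap L E l)) :
    ∃ c : k, Ge P 1 (algebraMap L E (l - algebraMap k L c)) := by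
  obtain ⟨p, e, he, hp⟩ := restr bc P hP
  have h1 : Ge p 0 l := by
    right
    rw [hp] at hl
    exact nonneg_of_mul_nonneg_right hl he
  obtain ⟨c, hc⟩ := exists_const p h1
  refine ⟨c, ?_⟩
  rcases hc with hc | hc
  · left; rw [hc, map_zero]
  · right
    rw [hp]
    nlinarith

/-- good representations -/
lemma rep [IsAlgClosed k] [CharZero k] [IsFF k L] (bc : BC k L Ω E) (P : Place Ω E)
    (hP : ∃ l : L, P.ord (algebraMap L E l) ≠ 0) (b : E) (hb : b ≠ 0) :
    ∀ (n : ℕ) (s : Finset ℕ) (w : ℕ → Ω) (l : ℕ → L), s.card = n →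
    b = ∑ i ∈ s, algebraMap Ω E (w i) * algebraMap L E (l i) →
    ∃ (s' : Finset ℕ) (w' : ℕ → Ω) (l' : ℕ → L),
      b = ∑ i ∈ s', algebraMap Ω E (w' i) * algebraMap L E (l' i) ∧
      ∀ i ∈ s', Ge P (P.ord b) (algebraMap L E (l' i)) := by
  classical
  haveI := bc.towerL
  haveI := bc.towerO
  have hinj : Function.Injective (algebraMap L E) := (algebraMap L E).injective
  have hne : ∀ {l : L}, l ≠ 0 → algebraMap L E l ≠ 0 := fun h h' => h (hinj (by rw [h', map_zero]))
  intro n
  induction n with
  | zero =>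
    intro s w l hs hbs
    rw [Finset.card_eq_zero] at hs
    rw [hs, Finset.sum_empty] at hbs
    exact absurd hbs hb
  | succ n ih =>
    intro s w l hs hbs
    by_cases hall : ∀ i ∈ s, Ge P (P.ord b) (algebraMap L E (l i))
    · exact ⟨s, w, l, hbs, hall⟩
    push Not at hall
    obtain ⟨j, hj, hjG⟩ := hall
    have hjG' : l j ≠ 0 ∧ P.ord (algebraMap L E (l j)) < P.ord b := by
      unfold Ge at hjG
      push Not at hjG
      refine ⟨fun h => hjG.1 (by rw [h, map_zero]), hjG.2⟩
    -- an index of minimal order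
    obtain ⟨i0, hi0, hmin⟩ := Finset.exists_min_image (s.filter fun i => l i ≠ 0)
      (fun i => P.ord (algebraMap L E (l i))) ⟨j, Finset.mem_filter.2 ⟨hj, hjG'.1⟩⟩
    rw [Finset.mem_filter] at hi0
    have hlt : P.ord (algebraMap L E (l i0)) < P.ord b :=
      (hmin j (Finset.mem_filter.2 ⟨hj, hjG'.1⟩)).trans_lt hjG'.2
    have hc : ∀ i, ∃ c : k, i ∈ s →
        Ge P (P.ord (algebraMap L E (l i0)) + 1)
          (algebraMap L E (l i - algebraMap k L c * l i0)) := by
      intro i
      by_cases his : i ∈ s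
      swap
      · exact ⟨0, fun h => absurd h his⟩
      have h1 : 0 ≤ P.ord (algebraMap L E (l i / l i0)) := by
        by_cases hli : l i = 0
        · rw [hli, zero_div, map_zero, P.ord_zero]
        · rw [map_div₀, P.ord_div (hne hli) (hne hi0.2)]
          have := hmin i (Finset.mem_filter.2 ⟨his, hli⟩)
          omega
      obtain ⟨c, hc⟩ := res bc P hP _ h1
      refine ⟨c, fun _ => ?_⟩
      have h2 : Ge P (P.ord (algebraMap L E (l i0))) (algebraMap L E (l i0)) := Or.inr le_rfl
      have h3 := h2.mul hc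
      rw [← map_mul] at h3
      have h4 : l i0 * (l i / l i0 - algebraMap k L c) = l i - algebraMap k L c * l i0 := by
        have := hi0.2
        field_simp
      rw [h4] at h3
      exact h3
    choose c hc using hc
    -- the coefficient of `l i0`
    set W : Ω := w i0 + ∑ i ∈ s.erase i0, w i * algebraMap k Ω (c i) with hW
    have hsplit : b = algebraMap Ω E W * algebraMap L E (l i0) +
        ∑ i ∈ s.erase i0, algebraMap Ω E (w i) *
          algebraMap L E (l i - algebraMap k L (c i) * l i0) := by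
      rw [hbs, ← Finset.add_sum_erase s _ hi0.1, hW, map_add, add_mul, add_assoc, map_sum,
        Finset.sum_mul, ← Finset.sum_add_distrib]
      congr 1
      refine Finset.sum_congr rfl fun i _ => ?_
      rw [map_mul, map_sub, map_mul, ← IsScalarTower.algebraMap_apply k L E,
        ← IsScalarTower.algebraMap_apply k Ω E]
      ring
    have hW0 : W = 0 := by
      by_contra hW0
      have hWE : algebraMap Ω E W ≠ 0 := fun h =>
        hW0 ((algebraMap Ω E).injective (by rw [h, map_zero]))
      have ho : P.ord (algebraMap Ω E W * algebraMap L E (l i0)) =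
          P.ord (algebraMap L E (l i0)) := by
        rw [P.ord_mul hWE (hne hi0.2), P.ord_const hW0, zero_add]
      have hr : Ge P (P.ord (algebraMap L E (l i0)) + 1)
          (∑ i ∈ s.erase i0, algebraMap Ω E (w i) *
          algebraMap L E (l i - algebraMap k L (c i) * l i0)) := by
        refine Ge.sum _ _ fun i hi => ?_
        have h1 := (Ge.const (P := P) (w i)).mul (hc i (Finset.mem_of_mem_erase hi))
        rwa [zero_add] at h1
      rcases hr with hr | hr
      · rw [hr, add_zero] at hsplit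
        rw [hsplit, ho] at hlt
        exact lt_irrefl _ hlt
      · by_cases hr0 : ∑ i ∈ s.erase i0, algebraMap Ω E (w i) *
          algebraMap L E (l i - algebraMap k L (c i) * l i0) = 0
        · rw [hr0, add_zero] at hsplit
          rw [hsplit, ho] at hlt
          exact lt_irrefl _ hlt
        · have h5 := (P.ord_add_eq (mul_ne_zero hWE (hne hi0.2)) hr0 (by rw [ho]; omega)).2
          rw [← hsplit, ho] at h5
          omega
    rw [hW0, map_zero, zero_mul, zero_add] at hsplit
    exact ih (s.erase i0) w _ (by rw [Finset.card_erase_of_mem hi0.1, hs]; rfl) hsplit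

/-- elements of the span are sums -/
lemma span_sum (b : E) (hb : b ∈ Submodule.span Ω (Set.range (algebraMap L E))) :
    ∃ (s : Finset ℕ) (w : ℕ → Ω) (l : ℕ → L),
      b = ∑ i ∈ s, algebraMap Ω E (w i) * algebraMap L E (l i) := by
  classical
  obtain ⟨n, f, g, h⟩ := Submodule.mem_span_set'.1 hb
  choose l hl using fun i => (g i).2
  refine ⟨Finset.range n, fun i => if hi : i < n then f ⟨i, hi⟩ else 0,
    fun i => if hi : i < n then l ⟨i, hi⟩ else 0, ?_⟩
  rw [← h, Finset.sum_range]
  refine Finset.sum_congr rfl fun i _ => ?_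
  simp only [Fin.is_lt, dif_pos, Fin.eta]
  rw [hl, Algebra.smul_def]

/-- the derivation does not lower the order on the span -/
lemma der_span [IsAlgClosed k] [CharZero k] [IsFF k L] (bc : BC k L Ω E) (D : Derivation L E E)
    (D0 : Derivation k Ω Ω) (hD : ∀ ω, D (algebraMap Ω E ω) = algebraMap Ω E (D0 ω))
    (P : Place Ω E) (hP : ∃ l : L, P.ord (algebraMap L E l) ≠ 0) (b : E)
    (hb : b ∈ Submodule.span Ω (Set.range (algebraMap L E))) (hb0 : b ≠ 0) :
    Ge P (P.ord b) (D b) := by
  obtain ⟨s, w, l, h⟩ := span_sum b hb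
  obtain ⟨s', w', l', h', hG⟩ := rep bc P hP b hb0 _ s w l rfl h
  have h1 : D b = ∑ i ∈ s', algebraMap Ω E (D0 (w' i)) * algebraMap L E (l' i) := by
    conv_lhs => rw [h']
    rw [map_sum]
    refine Finset.sum_congr rfl fun i _ => ?_
    rw [D.leibniz, D.map_algebraMap, smul_zero, zero_add, hD, smul_eq_mul, mul_comm]
  rw [h1]
  refine Ge.sum _ _ fun i hi => ?_
  have h2 := (Ge.const (P := P) (D0 (w' i))).mul (hG i hi)
  rwa [zero_add] at h2

theorem main : S_RGC := by
  intro k L Ω E _ _ _ _ _ _ _ _ _ _ _ _ _ bc D D0 hD P hP f hDf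
  have hf0 : f ≠ 0 := by
    rintro rfl
    rw [map_zero] at hDf
    exact hDf rfl
  obtain ⟨a, ha, b, hb, hb0, hab⟩ := bc.gen f
  have ha0 : a ≠ 0 := by
    rintro rfl
    rw [zero_div] at hab
    exact hf0 hab
  have h1 := der_span bc D D0 hD P hP a ha ha0
  have h2 := der_span bc D D0 hD P hP b hb hb0
  have h3 : b * b * D f = b * D a - a * D b := by
    have e1 : a = f * b := by rw [hab]; field_simp
    have e2 : D a = f * D b + b * D f := by
      rw [e1, D.leibniz, smul_eq_mul, smul_eq_mul]
    rw [e2]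
    conv_rhs => rw [e1]
    ring
  have h4 : Ge P (P.ord a + P.ord b) (b * b * D f) := by
    rw [h3]
    have h5 : Ge P (P.ord b) b := Or.inr le_rfl
    have h6 : Ge P (P.ord a) a := Or.inr le_rfl
    have h7 := h5.mul h1
    rw [add_comm] at h7
    exact h7.sub (h6.mul h2)
  rcases h4 with h4 | h4
  · exact absurd ((mul_eq_zero.1 h4).resolve_left (mul_ne_zero hb0 hb0)) hDf
  · rw [P.ord_mul (mul_ne_zero hb0 hb0) hDf, P.ord_mul hb0 hb0] at h4
    rw [hab, P.ord_div ha0 hb0]
    rw [hab] at h4
    omega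

end Pool.Agent.W215.RG.RGC
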